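import Mathlib

/-!
# The block space

A Tychonoff, `k`-semistratifiable, `k_ℝ`-space with two disjoint closed sets (the roots and the
points of the second kind) that no continuous function separates.
-/

open Set Topology Filter

namespace Pool.Agent.H821.KSS

/-- `k`-semistratifiable spaces. -/
def KSemi (X : Type*) [TopologicalSpace X] : Prop :=
  ∃ S : Set X → ℕ → Set X,
    (∀ U, IsOpen U → ∀ n, IsClosed (S U n)) ∧
    (∀ U, IsOpen U → U = ⋃ n, S U n) ∧
    (∀ U, IsOpen U → ∀ K, IsCompact K → K ⊆ U → ∃ n, K ⊆ S U n) ∧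
    (∀ U V, IsOpen U → IsOpen V → U ⊆ V → ∀ n, S U n ⊆ S V n)

/-- Every real function continuous on all compact sets is continuous. -/
def KR (X : Type*) [TopologicalSpace X] : Prop :=
  ∀ f : X → ℝ, (∀ K : Set X, IsCompact K → ContinuousOn f K) → Continuous f

/-- A function continuous on compact sets is sequentially continuous. -/
theorem seq_cont {X : Type*} [TopologicalSpace X] (g : X → ℝ)
    (hg : ∀ K : Set X, IsCompact K → ContinuousOn g K) (a : ℕ → X) (l : X)
    (ha : Tendsto a atTop (𝓝 l)) : Tendsto (fun n => g (a n)) atTop (𝓝 (g l)) := by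
  have hK : IsCompact (insert l (range a)) := ha.isCompact_insert_range
  have h1 : ContinuousWithinAt g (insert l (range a)) l := hg _ hK l (mem_insert _ _)
  have h2 : Tendsto a atTop (𝓝[insert l (range a)] l) := by
    rw [tendsto_nhdsWithin_iff]
    exact ⟨ha, Eventually.of_forall fun n => mem_insert_of_mem _ (mem_range_self n)⟩
  exact h1.tendsto.comp h2

/-- The points of the block space. -/
inductive Blk : Type
  | node (x : ℕ → Bool) (s : List ℕ) : Blk
  | pt (x : ℕ → Bool) (b : ℕ → ℕ) : Blk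

open Blk

/-- `x'` agrees with `x` below `m`. -/
def AG {α : Type} (m : ℕ) (x x' : ℕ → α) : Prop := ∀ i < m, x' i = x i

/-- the first `m` entries of `s` are those of `b`. -/
def PP (m : ℕ) (b : ℕ → ℕ) (s : List ℕ) : Prop := ∀ i < m, s[i]? = some (b i)

theorem PP.append {m : ℕ} {b : ℕ → ℕ} {s : List ℕ} (h : PP m b s) (t : List ℕ) :
    PP m b (s ++ t) := by
  intro i hi
  have := h i hi
  have hlt : i < s.length := by
    by_contra hc
    rw [List.getElem?_eq_none (by omega)] at this
    exact absurd this (by simp)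
  rw [List.getElem?_append_left hlt]
  exact this

theorem PP.le_length {m : ℕ} {b : ℕ → ℕ} {s : List ℕ} (h : PP m b s) : m ≤ s.length := by
  by_contra hc
  have := h s.length (by omega)
  rw [List.getElem?_eq_none (le_refl _)] at this
  exact absurd this (by simp)

/-- The basic neighbourhood of a point of the second kind. -/
def N (m : ℕ) (x : ℕ → Bool) (b : ℕ → ℕ) : Set Blk := fun p =>
  match p with
  | node x' s => x' ≠ x ∧ AG m x x' ∧ PP m b s
  | pt x' b' => AG m x x' ∧ AG m b b'

theorem node_mem_N {m : ℕ} {x : ℕ → Bool} {b : ℕ → ℕ} {x' : ℕ → Bool} {s : List ℕ} :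
    node x' s ∈ N m x b ↔ x' ≠ x ∧ AG m x x' ∧ PP m b s := Iff.rfl

theorem pt_mem_N {m : ℕ} {x : ℕ → Bool} {b : ℕ → ℕ} {x' : ℕ → Bool} {b' : ℕ → ℕ} :
    pt x' b' ∈ N m x b ↔ AG m x x' ∧ AG m b b' := Iff.rfl

theorem N_anti {m m' : ℕ} (h : m ≤ m') (x : ℕ → Bool) (b : ℕ → ℕ) : N m' x b ⊆ N m x b := by
  intro p hp
  cases p with
  | node x' s =>
    exact ⟨hp.1, fun i hi => hp.2.1 i (by omega), fun i hi => hp.2.2 i (by omega)⟩
  | pt x' b' =>
    exact ⟨fun i hi => hp.1 i (by omega), fun i hi => hp.2 i (by omega)⟩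

theorem self_mem_N (m : ℕ) (x : ℕ → Bool) (b : ℕ → ℕ) : pt x b ∈ N m x b :=
  ⟨fun _ _ => rfl, fun _ _ => rfl⟩

instance : TopologicalSpace Blk where
  IsOpen U := (∀ x s, node x s ∈ U → ∀ᶠ j : ℕ in atTop, node x (s ++ [j]) ∈ U) ∧
    (∀ x b, pt x b ∈ U → ∃ m, N m x b ⊆ U)
  isOpen_univ := ⟨fun _ _ _ => Eventually.of_forall fun _ => trivial,
    fun _ _ _ => ⟨0, subset_univ _⟩⟩
  isOpen_inter := by
    rintro U V ⟨hU1, hU2⟩ ⟨hV1, hV2⟩
    refine ⟨fun x s hs => (hU1 x s hs.1).and (hV1 x s hs.2), fun x b hb => ?_⟩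
    obtain ⟨m, hm⟩ := hU2 x b hb.1
    obtain ⟨m', hm'⟩ := hV2 x b hb.2
    exact ⟨max m m', subset_inter ((N_anti (le_max_left _ _) x b).trans hm)
      ((N_anti (le_max_right _ _) x b).trans hm')⟩
  isOpen_sUnion := by
    intro 𝒰 h𝒰
    refine ⟨?_, ?_⟩
    · rintro x s ⟨U, hU, hs⟩
      exact ((h𝒰 U hU).1 x s hs).mono fun j hj => ⟨U, hU, hj⟩
    · rintro x b ⟨U, hU, hb⟩
      obtain ⟨m, hm⟩ := (h𝒰 U hU).2 x b hb
      exact ⟨m, hm.trans (subset_sUnion_of_mem hU)⟩

theorem isOpen_iff {U : Set Blk} : IsOpen U ↔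
    (∀ x s, node x s ∈ U → ∀ᶠ j : ℕ in atTop, node x (s ++ [j]) ∈ U) ∧
    (∀ x b, pt x b ∈ U → ∃ m, N m x b ⊆ U) := Iff.rfl

theorem isClosed_iff {C : Set Blk} : IsClosed C ↔
    (∀ x s, node x s ∉ C → ∀ᶠ j : ℕ in atTop, node x (s ++ [j]) ∉ C) ∧
    (∀ x b, pt x b ∉ C → ∃ m, Disjoint (N m x b) C) := by
  rw [← isOpen_compl_iff, isOpen_iff]
  simp only [mem_compl_iff, subset_compl_iff_disjoint_right]

theorem exists_ne {x x' : ℕ → Bool} (h : x' ≠ x) : ∃ k, x' k ≠ x k := by
  by_contra hc
  push Not at hc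
  exact h (funext hc)

theorem isOpen_N (m : ℕ) (x : ℕ → Bool) (b : ℕ → ℕ) : IsOpen (N m x b) := by
  rw [isOpen_iff]
  refine ⟨fun x' s hs => Eventually.of_forall fun j => ⟨hs.1, hs.2.1, hs.2.2.append _⟩, ?_⟩
  intro x' b' hb'
  by_cases hx : x' = x
  · subst hx
    refine ⟨m, ?_⟩
    intro p hp
    cases p with
    | node x'' s =>
      exact ⟨hp.1, hp.2.1, fun i hi => by rw [hp.2.2 i hi, hb'.2 i hi]⟩
    | pt x'' b'' =>
      exact ⟨hp.1, fun i hi => by rw [hp.2 i hi, hb'.2 i hi]⟩
  · obtain ⟨k, hk⟩ := exists_ne hx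
    refine ⟨max m (k + 1), ?_⟩
    intro p hp
    cases p with
    | node x'' s =>
      refine ⟨?_, fun i hi => ?_, fun i hi => ?_⟩
      · intro he
        have := hp.2.1 k (by omega)
        rw [he] at this
        exact hk this.symm
      · rw [hp.2.1 i (by omega), hb'.1 i hi]
      · rw [hp.2.2 i (by omega), hb'.2 i hi]
    | pt x'' b'' =>
      refine ⟨fun i hi => ?_, fun i hi => ?_⟩
      · rw [hp.1 i (by omega), hb'.1 i hi]
      · rw [hp.2 i (by omega), hb'.2 i hi]

theorem PP_or {m : ℕ} {b : ℕ → ℕ} {s : List ℕ} {j : ℕ} (h : PP m b (s ++ [j])) (h' : ¬ PP m b s) :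
    j = b s.length := by
  unfold PP at h'
  push Not at h'
  obtain ⟨i, hi, hne⟩ := h'
  have h1 := h i hi
  have hle : s.length ≤ i := by
    by_contra hc
    rw [List.getElem?_append_left (by omega)] at h1
    exact hne h1
  have h2 : i < (s ++ [j]).length := by
    by_contra hc
    rw [List.getElem?_eq_none (by omega)] at h1
    exact absurd h1 (by simp)
  have h3 : i = s.length := by
    simp only [List.length_append, List.length_singleton] at h2
    omega
  subst h3
  simpa using h1

theorem isClosed_N (m : ℕ) (x : ℕ → Bool) (b : ℕ → ℕ) : IsClosed (N m x b) := by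
  rw [isClosed_iff]
  refine ⟨fun x' s hs => ?_, fun x' b' hb' => ⟨m, ?_⟩⟩
  · filter_upwards [eventually_gt_atTop (b s.length)] with j hj hmem
    have hP : ¬ PP m b s := fun hP => hs ⟨hmem.1, hmem.2.1, hP⟩
    have := PP_or hmem.2.2 hP
    omega
  · rw [Set.disjoint_left]
    intro p hp hp'
    apply hb'
    cases p with
    | node x'' s =>
      refine ⟨fun i hi => ?_, fun i hi => ?_⟩
      · rw [← hp'.2.1 i hi, hp.2.1 i hi]
      · have h1 := hp.2.2 i hi
        have h2 := hp'.2.2 i hi
        rw [h1] at h2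
        exact Option.some.inj h2
    | pt x'' b'' =>
      refine ⟨fun i hi => ?_, fun i hi => ?_⟩
      · rw [← hp'.1 i hi, hp.1 i hi]
      · rw [← hp'.2 i hi, hp.2 i hi]

/-- The tree over `x`. -/
def T (x : ℕ → Bool) : Set Blk := {p | ∃ s, p = node x s}

theorem exists_disj_T (x x' : ℕ → Bool) (b : ℕ → ℕ) : ∃ m, Disjoint (N m x' b) (T x) := by
  by_cases hx : x' = x
  · subst hx
    refine ⟨0, ?_⟩
    rw [Set.disjoint_left]
    rintro p hp ⟨s, rfl⟩
    exact hp.1 rfl
  · obtain ⟨k, hk⟩ := exists_ne hx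
    refine ⟨k + 1, ?_⟩
    rw [Set.disjoint_left]
    rintro p hp ⟨s, rfl⟩
    exact hk (hp.2.1 k (by omega)).symm

theorem isClosed_T (x : ℕ → Bool) : IsClosed (T x) := by
  rw [isClosed_iff]
  refine ⟨fun x' s hs => ?_, fun x' b _ => exists_disj_T x x' b⟩
  refine Eventually.of_forall fun j => ?_
  rintro ⟨s', hs'⟩
  injection hs' with h1 h2
  subst h1
  exact hs ⟨s, rfl⟩

theorem isOpen_T (x : ℕ → Bool) : IsOpen (T x) := by
  rw [isOpen_iff]
  refine ⟨?_, ?_⟩
  · rintro x' s ⟨s', hs'⟩
    injection hs' with h1 h2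
    subst h1
    exact Eventually.of_forall fun j => ⟨_, rfl⟩
  · rintro x' b ⟨s', hs'⟩
    cases hs'

/-- closed subsets inside one tree -/
theorem isClosed_of_subset_T {x : ℕ → Bool} {C : Set Blk} (hC : C ⊆ T x)
    (h : ∀ s, node x s ∉ C → ∀ᶠ j : ℕ in atTop, node x (s ++ [j]) ∉ C) : IsClosed C := by
  rw [isClosed_iff]
  refine ⟨fun x' s hs => ?_, fun x' b _ => ?_⟩
  · by_cases hx : x' = x
    · subst hx
      exact h s hs
    · refine Eventually.of_forall fun j hj => ?_
      obtain ⟨s', hs'⟩ := hC hj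
      injection hs' with h1 h2
      exact hx h1
  · obtain ⟨m, hm⟩ := exists_disj_T x x' b
    exact ⟨m, hm.mono_right hC⟩

/-- The basic clopen neighbourhood of a node inside `U`. -/
def V (U : Set Blk) (x : ℕ → Bool) (s : List ℕ) : Set Blk :=
  {p | ∃ s', p = node x s' ∧ s <+: s' ∧ ∀ r, s <+: r → r <+: s' → node x r ∈ U}

theorem prefix_append_singleton {r s : List ℕ} {j : ℕ} (h : r <+: s ++ [j]) :
    r <+: s ∨ r = s ++ [j] := by
  rcases List.prefix_concat_iff.1 (by simpa using h) with h1 | h1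
  · right
    simpa using h1
  · left
    exact h1

theorem self_mem_V {U : Set Blk} {x : ℕ → Bool} {s : List ℕ} (h : node x s ∈ U) :
    node x s ∈ V U x s := by
  refine ⟨s, rfl, List.prefix_rfl, fun r h1 h2 => ?_⟩
  have : r = s := (h2.eq_of_length (le_antisymm h2.length_le h1.length_le))
  rw [this]; exact h

theorem V_subset {U : Set Blk} {x : ℕ → Bool} {s : List ℕ} : V U x s ⊆ U := by
  rintro p ⟨s', rfl, h1, h2⟩
  exact h2 s' h1 List.prefix_rfl

theorem isOpen_V {U : Set Blk} (hU : IsOpen U) (x : ℕ → Bool) (s : List ℕ) : IsOpen (V U x s) := by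
  rw [isOpen_iff]
  refine ⟨?_, ?_⟩
  · rintro x' q ⟨s', hs', h1, h2⟩
    injection hs' with e1 e2
    subst e1; subst e2
    filter_upwards [(isOpen_iff.1 hU).1 x' q (h2 q h1 List.prefix_rfl)] with j hj
    refine ⟨_, rfl, h1.trans (List.prefix_append _ _), fun r hr1 hr2 => ?_⟩
    rcases prefix_append_singleton hr2 with h | h
    · exact h2 r hr1 h
    · rw [h]; exact hj
  · rintro x' b ⟨s', hs', _⟩
    cases hs'

theorem isClosed_V (U : Set Blk) (x : ℕ → Bool) (s : List ℕ) : IsClosed (V U x s) := by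
  refine isClosed_of_subset_T (x := x) ?_ ?_
  · rintro p ⟨s', rfl, _⟩
    exact ⟨s', rfl⟩
  · intro q hq
    have hev : ∀ᶠ j : ℕ in atTop, s ≠ q ++ [j] := by
      by_cases hex : ∃ j, s = q ++ [j]
      · obtain ⟨j0, hj0⟩ := hex
        filter_upwards [eventually_gt_atTop j0] with j hj he
        rw [hj0] at he
        have := List.append_cancel_left he
        simp at this
        omega
      · push Not at hex
        exact Eventually.of_forall hex
    filter_upwards [hev] with j hj
    rintro ⟨s', hs', h1, h2⟩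
    injection hs' with e1 e2
    subst e2
    rcases prefix_append_singleton h1 with h | h
    · exact hq ⟨q, rfl, h, fun r hr1 hr2 => h2 r hr1 (hr2.trans (List.prefix_append _ _))⟩
    · exact hj h

theorem isTopologicalBasis_clopens : TopologicalSpace.IsTopologicalBasis {s : Set Blk | IsClopen s} := by
  refine TopologicalSpace.isTopologicalBasis_of_isOpen_of_nhds (fun s hs => hs.2) ?_
  intro p U hp hU
  cases p with
  | node x s =>
    exact ⟨V U x s, ⟨isClosed_V U x s, isOpen_V hU x s⟩, self_mem_V hp, V_subset⟩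
  | pt x b =>
    obtain ⟨m, hm⟩ := (isOpen_iff.1 hU).2 x b hp
    exact ⟨N m x b, ⟨isClosed_N m x b, isOpen_N m x b⟩, self_mem_N m x b, hm⟩

instance : T0Space Blk := by
  refine ⟨?_⟩
  intro p q hpq
  have key : ∀ U : Set Blk, IsOpen U → (p ∈ U ↔ q ∈ U) := fun U hU => hpq.mem_open_iff hU
  cases p with
  | node x s =>
    cases q with
    | node x' s' =>
      have hx : x' = x := by
        obtain ⟨t, ht⟩ := (key (T x) (isOpen_T x)).1 ⟨s, rfl⟩
        injection ht
      subst hx
      have h1 : s <+: s' := by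
        obtain ⟨t, ht, h, _⟩ := (key (V univ x' s) (isOpen_V isOpen_univ x' s)).1
          (self_mem_V (mem_univ _))
        injection ht with _ e
        subst e; exact h
      have h2 : s' <+: s := by
        obtain ⟨t, ht, h, _⟩ := (key (V univ x' s') (isOpen_V isOpen_univ x' s')).2
          (self_mem_V (mem_univ _))
        injection ht with _ e
        subst e; exact h
      rw [h1.eq_of_length (le_antisymm h1.length_le h2.length_le)]
    | pt x' b' =>
      obtain ⟨t, ht⟩ := (key (T x) (isOpen_T x)).1 ⟨s, rfl⟩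
      cases ht
  | pt x b =>
    cases q with
    | node x' s' =>
      obtain ⟨t, ht⟩ := (key (T x') (isOpen_T x')).2 ⟨s', rfl⟩
      cases ht
    | pt x' b' =>
      have h : ∀ m, pt x' b' ∈ N m x b := fun m =>
        (key (N m x b) (isOpen_N m x b)).1 (self_mem_N m x b)
      have h1 : x' = x := funext fun i => (h (i+1)).1 i (by omega)
      have h2 : b' = b := funext fun i => (h (i+1)).2 i (by omega)
      rw [h1, h2]

instance : CompletelyRegularSpace Blk :=
  CompletelyRegularSpace.of_isTopologicalBasis_clopens isTopologicalBasis_clopens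

instance : T35Space Blk where

/-! ### Convergent sequences -/

theorem tendsto_node (x : ℕ → Bool) (s : List ℕ) :
    Tendsto (fun j : ℕ => node x (s ++ [j])) atTop (𝓝 (node x s)) := by
  rw [tendsto_nhds]
  intro U hU hs
  exact (isOpen_iff.1 hU).1 x s hs

theorem tendsto_pt (x : ℕ → Bool) (b : ℕ → ℕ) (a : ℕ → Blk) (ha : ∀ m, a m ∈ N m x b) :
    Tendsto a atTop (𝓝 (pt x b)) := by
  rw [tendsto_nhds]
  intro U hU hs
  obtain ⟨m, hm⟩ := (isOpen_iff.1 hU).2 x b hs
  filter_upwards [eventually_ge_atTop m] with n hn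
  exact hm (N_anti hn x b (ha n))

theorem kr_blk : KR Blk := by
  intro g hg
  refine ⟨fun O hO => ?_⟩
  rw [isOpen_iff]
  refine ⟨fun x s hs => ?_, fun x b hb => ?_⟩
  · have := seq_cont g hg _ _ (tendsto_node x s)
    exact this.eventually (hO.mem_nhds hs)
  · by_contra hc
    push Not at hc
    have h1 : ∀ m, ∃ a ∈ N m x b, g a ∉ O := by
      intro m
      obtain ⟨a, ha, ha'⟩ := Set.not_subset.1 (hc m)
      exact ⟨a, ha, ha'⟩
    choose a ha ha' using h1
    have h2 := seq_cont g hg _ _ (tendsto_pt x b a ha)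
    obtain ⟨m, hm⟩ := (h2.eventually (hO.mem_nhds hb)).exists
    exact ha' m hm

/-- The roots. -/
def Roots : Set Blk := {p | ∃ x, p = node x []}

/-- The points of the second kind. -/
def Pts : Set Blk := {p | ∃ x b, p = pt x b}

theorem isClosed_Roots : IsClosed Roots := by
  rw [isClosed_iff]
  refine ⟨fun x s _ => Eventually.of_forall fun j => ?_, fun x b _ => ⟨1, ?_⟩⟩
  · rintro ⟨x', hx'⟩
    injection hx' with h1 h2
    simp at h2
  · rw [Set.disjoint_left]
    rintro p hp ⟨x', rfl⟩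
    have := hp.2.2.le_length
    simp at this

theorem isClosed_Pts : IsClosed Pts := by
  rw [isClosed_iff]
  refine ⟨fun x s _ => Eventually.of_forall fun j => ?_, fun x b hb => (hb ⟨x, b, rfl⟩).elim⟩
  rintro ⟨x', b', hx'⟩
  cases hx'

theorem disjoint_Roots_Pts : Disjoint Roots Pts := by
  rw [Set.disjoint_left]
  rintro p ⟨x, rfl⟩ ⟨x', b', h⟩
  cases h

/-! ### Roots and points are not separated -/

/-- the branch set -/
def Aset (O : Set Blk) (l : List (Bool × ℕ)) : Set (ℕ → Bool) :=
  {x | (∀ i, ∀ h : i < l.length, x i = (l[i]).1) ∧ node x (l.map Prod.snd) ∈ O}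

theorem Aset_step {O : Set Blk} (hO : IsOpen O) (l : List (Bool × ℕ))
    (h : ¬ (Aset O l).Countable) : ∃ c : Bool × ℕ, ¬ (Aset O (l ++ [c])).Countable := by
  by_contra hc
  push Not at hc
  apply h
  refine (countable_iUnion hc).mono ?_
  rintro x ⟨hx1, hx2⟩
  obtain ⟨j, hj⟩ := ((isOpen_iff.1 hO).1 x _ hx2).exists
  rw [mem_iUnion]
  refine ⟨(x l.length, j), ?_, ?_⟩
  · intro i hi
    rw [List.getElem_append]
    split_ifs with h'
    · exact hx1 i h'
    · have : i = l.length := by
        simp only [List.length_append, List.length_singleton] at hi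
        omega
      subst this
      simp
  · simpa using hj

theorem exists_adherent {O : Set Blk} (hO : IsOpen O) (hR : Roots ⊆ O) :
    ∃ x b, ∀ m, (N m x b ∩ O).Nonempty := by
  classical
  have h0 : ¬ (Aset O []).Countable := by
    have : Aset O [] = univ := by
      ext x
      simp only [Aset, mem_ofPred_eq, mem_univ, iff_true]
      refine ⟨fun i hi => ?_, hR ⟨x, rfl⟩⟩
      simp at hi
    rw [this, Set.countable_univ_iff, ← Cardinal.mk_le_aleph0_iff]
    simp only [Cardinal.mk_pi, Cardinal.mk_bool, Cardinal.prod_const, Cardinal.lift_id,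
      Cardinal.mk_nat, Cardinal.two_power_aleph0, not_le]
    exact Cardinal.aleph0_lt_continuum
  have hc : ∀ l : List (Bool × ℕ), ∃ c : Bool × ℕ, ¬ (Aset O l).Countable →
      ¬ (Aset O (l ++ [c])).Countable := by
    intro l
    by_cases h : (Aset O l).Countable
    · exact ⟨(true, 0), fun h' => (h' h).elim⟩
    · obtain ⟨c, hc⟩ := Aset_step hO l h
      exact ⟨c, fun _ => hc⟩
  choose c hc using hc
  let L : ℕ → List (Bool × ℕ) := fun n => Nat.rec [] (fun _ l => l ++ [c l]) n
  have hL0 : L 0 = [] := rfl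
  have hLs : ∀ n, L (n+1) = L n ++ [c (L n)] := fun n => rfl
  have hLen : ∀ n, (L n).length = n := by
    intro n
    induction n with
    | zero => rfl
    | succ n ih => rw [hLs]; simp [ih]
  have hLget : ∀ n i (h : i < n), (L n)[i]? = some (c (L i)) := by
    intro n
    induction n with
    | zero => intro i h; omega
    | succ n ih =>
      intro i h
      rw [hLs]
      by_cases hi : i < n
      · rw [List.getElem?_append_left (by rw [hLen]; exact hi)]
        exact ih i hi
      · have : i = n := by omega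
        subst this
        rw [List.getElem?_append_right (by rw [hLen])]
        simp [hLen]
  have hLunc : ∀ n, ¬ (Aset O (L n)).Countable := by
    intro n
    induction n with
    | zero => exact h0
    | succ n ih => rw [hLs]; exact hc _ ih
  refine ⟨fun i => (c (L i)).1, fun i => (c (L i)).2, fun m => ?_⟩
  have : ∃ x' ∈ Aset O (L m), x' ≠ fun i => (c (L i)).1 := by
    by_contra hcon
    push Not at hcon
    exact hLunc m ((countable_singleton _).mono hcon)
  obtain ⟨x', ⟨hx1, hx2⟩, hne⟩ := this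
  refine ⟨node x' ((L m).map Prod.snd), ⟨hne, fun i hi => ?_, fun i hi => ?_⟩, hx2⟩
  · have hi' : i < (L m).length := by rw [hLen]; exact hi
    rw [hx1 i hi']
    have := hLget m i hi
    rw [List.getElem?_eq_getElem hi'] at this
    rw [Option.some.inj this]
  · rw [List.getElem?_map, hLget m i hi]
    rfl

theorem not_separated : ¬ ∃ h : Blk → ℝ, Continuous h ∧ (∀ p ∈ Pts, h p = 0) ∧
    (∀ p ∈ Roots, h p = 1) := by
  rintro ⟨h, hcont, h0, h1⟩
  have hO : IsOpen (h ⁻¹' Ioi (1/2)) := isOpen_Ioi.preimage hcont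
  obtain ⟨x, b, hxb⟩ := exists_adherent hO (fun p hp => by
    simp only [mem_preimage, mem_Ioi]; rw [h1 p hp]; norm_num)
  have hO' : IsOpen (h ⁻¹' Iio (1/2)) := isOpen_Iio.preimage hcont
  have hmem : pt x b ∈ h ⁻¹' Iio (1/2) := by
    simp only [mem_preimage, mem_Iio]; rw [h0 _ ⟨x, b, rfl⟩]; norm_num
  obtain ⟨m, hm⟩ := (isOpen_iff.1 hO').2 x b hmem
  obtain ⟨p, hp1, hp2⟩ := hxb m
  have := hm hp1
  simp only [mem_preimage, mem_Iio, mem_Ioi] at this hp2
  linarith

end Pool.Agent.H821.KSS
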