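import Pool.Agent.H821.KSS.Block

/-!
# The block space is `k`-semistratifiable
-/

open Set Topology Filter

namespace Pool.Agent.H821.KSS

open Blk

/-- the cone over `(x, t)` lies in `U` apart from the nodes of at most one tree. -/
def OK (U : Set Blk) (x : ℕ → Bool) (t : List ℕ) : Prop :=
  (∀ x' b', AG t.length x x' → (∀ k < t.length, t[k]? = some (b' k)) → pt x' b' ∈ U) ∧
  ∃ z, ∀ x' s, AG t.length x x' → t <+: s → x' ≠ z → node x' s ∈ U

theorem OK.mono {U V : Set Blk} (h : U ⊆ V) {x : ℕ → Bool} {t : List ℕ} (hU : OK U x t) :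
    OK V x t := by
  refine ⟨fun x' b' h1 h2 => h (hU.1 x' b' h1 h2), ?_⟩
  obtain ⟨z, hz⟩ := hU.2
  exact ⟨z, fun x' s h1 h2 h3 => h (hz x' s h1 h2 h3)⟩

theorem OK.congr {U : Set Blk} {x x' : ℕ → Bool} {t : List ℕ} (hU : OK U x' t)
    (h : AG t.length x x') : OK U x t := by
  refine ⟨fun x'' b' h1 h2 => hU.1 x'' b' (fun i hi => ?_) h2, ?_⟩
  · rw [h1 i hi, h i hi]
  · obtain ⟨z, hz⟩ := hU.2
    refine ⟨z, fun x'' s h1 h2 h3 => hz x'' s (fun i hi => ?_) h2 h3⟩
    rw [h1 i hi, h i hi]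

/-- The first closed part. -/
def UF (U : Set Blk) (n : ℕ) : Set Blk := fun p =>
  match p with
  | node x s => ∃ t, t <+: s ∧ t.length ≤ n ∧ (∀ a ∈ t, a ≤ n) ∧ OK U x t ∧
      ∀ s', t <+: s' → node x s' ∈ U
  | pt x b => ∃ i ≤ n, (∀ k < i, b k ≤ n) ∧ OK U x ((List.range i).map b)

/-- The second closed part. -/
def GG (U : Set Blk) (n : ℕ) : Set Blk := fun p =>
  match p with
  | node x s => node x s ∈ U ∧ s.length ≤ n ∧ ((∀ a ∈ s, a ≤ n) ∨
      ((∀ a ∈ s.dropLast, a ≤ n) ∧ node x s.dropLast ∈ U))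
  | pt _ _ => False

theorem node_mem_UF {U : Set Blk} {n : ℕ} {x : ℕ → Bool} {s : List ℕ} :
    node x s ∈ UF U n ↔ ∃ t, t <+: s ∧ t.length ≤ n ∧ (∀ a ∈ t, a ≤ n) ∧ OK U x t ∧
      ∀ s', t <+: s' → node x s' ∈ U := Iff.rfl

theorem pt_mem_UF {U : Set Blk} {n : ℕ} {x : ℕ → Bool} {b : ℕ → ℕ} :
    pt x b ∈ UF U n ↔ ∃ i ≤ n, (∀ k < i, b k ≤ n) ∧ OK U x ((List.range i).map b) := Iff.rfl

theorem node_mem_GG {U : Set Blk} {n : ℕ} {x : ℕ → Bool} {s : List ℕ} :
    node x s ∈ GG U n ↔ node x s ∈ U ∧ s.length ≤ n ∧ ((∀ a ∈ s, a ≤ n) ∨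
      ((∀ a ∈ s.dropLast, a ≤ n) ∧ node x s.dropLast ∈ U)) := Iff.rfl

theorem UF_subset (U : Set Blk) (n : ℕ) : UF U n ⊆ U := by
  intro p hp
  cases p with
  | node x s =>
    obtain ⟨t, h1, _, _, _, h5⟩ := hp
    exact h5 s h1
  | pt x b =>
    obtain ⟨i, _, _, h⟩ := hp
    refine h.1 x b (fun _ _ => rfl) (fun k hk => ?_)
    simp only [List.length_map, List.length_range] at hk
    simp [hk]

theorem GG_subset (U : Set Blk) (n : ℕ) : GG U n ⊆ U := by
  intro p hp
  cases p with
  | node x s => exact hp.1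
  | pt x b => exact hp.elim

theorem UF_mono_set {U V : Set Blk} (h : U ⊆ V) (n : ℕ) : UF U n ⊆ UF V n := by
  intro p hp
  cases p with
  | node x s =>
    obtain ⟨t, h1, h2, h3, h4, h5⟩ := hp
    exact ⟨t, h1, h2, h3, h4.mono h, fun s' hs' => h (h5 s' hs')⟩
  | pt x b =>
    obtain ⟨i, h1, h2, h3⟩ := hp
    exact ⟨i, h1, h2, h3.mono h⟩

theorem GG_mono_set {U V : Set Blk} (h : U ⊆ V) (n : ℕ) : GG U n ⊆ GG V n := by
  intro p hp
  cases p with
  | node x s =>
    obtain ⟨h1, h2, h3⟩ := hp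
    exact ⟨h h1, h2, h3.imp id fun h4 => ⟨h4.1, h h4.2⟩⟩
  | pt x b => exact hp

theorem UF_mono {U : Set Blk} {n m : ℕ} (h : n ≤ m) : UF U n ⊆ UF U m := by
  intro p hp
  cases p with
  | node x s =>
    obtain ⟨t, h1, h2, h3, h4, h5⟩ := hp
    exact ⟨t, h1, h2.trans h, fun a ha => (h3 a ha).trans h, h4, h5⟩
  | pt x b =>
    obtain ⟨i, h1, h2, h3⟩ := hp
    exact ⟨i, h1.trans h, fun k hk => (h2 k hk).trans h, h3⟩

theorem GG_mono {U : Set Blk} {n m : ℕ} (h : n ≤ m) : GG U n ⊆ GG U m := by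
  intro p hp
  cases p with
  | node x s =>
    obtain ⟨h1, h2, h3⟩ := hp
    exact ⟨h1, h2.trans h, h3.imp (fun h4 a ha => (h4 a ha).trans h)
      fun h4 => ⟨fun a ha => (h4.1 a ha).trans h, h4.2⟩⟩
  | pt x b => exact hp

theorem PP.prefix_eq {m : ℕ} {b : ℕ → ℕ} {s t : List ℕ} (h : PP m b s) (ht : t <+: s)
    (hm : t.length ≤ m) : t = (List.range t.length).map b := by
  apply List.ext_getElem?
  intro i
  by_cases hi : i < t.length
  · have h1 : s[i]? = some (b i) := h i (by omega)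
    obtain ⟨r, rfl⟩ := ht
    rw [List.getElem?_append_left hi] at h1
    rw [h1]
    simp [hi]
  · rw [List.getElem?_eq_none (by omega), List.getElem?_eq_none (by simp; omega)]

theorem map_range_congr {b b' : ℕ → ℕ} {n i : ℕ} (h : AG n b b') (hi : i ≤ n) :
    (List.range i).map b' = (List.range i).map b := by
  apply List.map_congr_left
  intro k hk
  exact h k (by have := List.mem_range.1 hk; omega)

theorem isClosed_UF (U : Set Blk) (n : ℕ) : IsClosed (UF U n) := by
  rw [isClosed_iff]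
  refine ⟨fun x q hq => ?_, fun x b hb => ⟨n, ?_⟩⟩
  · filter_upwards [eventually_gt_atTop n] with j hj hmem
    obtain ⟨t, h1, h2, h3, h4, h5⟩ := hmem
    rcases prefix_append_singleton h1 with h | h
    · exact hq ⟨t, h, h2, h3, h4, h5⟩
    · have := h3 j (by rw [h]; simp)
      omega
  · rw [Set.disjoint_left]
    intro p hp hp'
    apply hb
    cases p with
    | node x' s =>
      obtain ⟨hne, hag, hpp⟩ := hp
      obtain ⟨t, h1, h2, h3, h4, h5⟩ := hp'
      have ht := hpp.prefix_eq h1 h2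
      refine ⟨t.length, h2, fun k hk => ?_, ?_⟩
      · apply h3
        rw [ht]
        exact List.mem_map.2 ⟨k, List.mem_range.2 hk, rfl⟩
      · rw [← ht]
        exact h4.congr fun i hi => hag i (by omega)
    | pt x' b' =>
      obtain ⟨hag, hag'⟩ := hp
      obtain ⟨i, h1, h2, h3⟩ := hp'
      refine ⟨i, h1, fun k hk => ?_, ?_⟩
      · rw [← hag' k (by omega)]
        exact h2 k hk
      · rw [← map_range_congr hag' h1]
        refine h3.congr fun k hk => hag k ?_
        simp at hk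
        omega

theorem isClosed_GG (U : Set Blk) (n : ℕ) : IsClosed (GG U n) := by
  rw [isClosed_iff]
  refine ⟨fun x q hq => ?_, fun x b hb => ⟨n + 1, ?_⟩⟩
  · filter_upwards [eventually_gt_atTop n] with j hj hmem
    obtain ⟨h1, h2, h3⟩ := hmem
    rcases h3 with h3 | h3
    · have := h3 j (by simp)
      omega
    · simp only [List.dropLast_concat] at h3
      apply hq
      refine ⟨h3.2, ?_, Or.inl h3.1⟩
      simp only [List.length_append, List.length_singleton] at h2
      omega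
  · rw [Set.disjoint_left]
    intro p hp hp'
    cases p with
    | node x' s =>
      have h1 := hp.2.2.le_length
      have h2 := hp'.2.1
      omega
    | pt x' b' => exact hp'

theorem N_subset_UF {U : Set Blk} {m : ℕ} {x : ℕ → Bool} {b : ℕ → ℕ} (h : N m x b ⊆ U) :
    ∃ n, N m x b ⊆ UF U n := by
  have hbd : ∃ B : ℕ, ∀ k < m, b k ≤ B :=
    ⟨(Finset.range m).sup b, fun k hk => Finset.le_sup (f := b) (Finset.mem_range.2 hk)⟩
  obtain ⟨B, hB⟩ := hbd
  have hOK : ∀ x', AG m x x' → OK U x' ((List.range m).map b) := by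
    intro x' hx'
    refine ⟨fun x'' b' h1 h2 => h ⟨fun i hi => ?_, fun i hi => ?_⟩,
      ⟨x, fun x'' s h1 h2 h3 => h ⟨h3, fun i hi => ?_, fun i hi => ?_⟩⟩⟩
    · rw [h1 i (by simpa using hi), hx' i hi]
    · have := h2 i (by simpa using hi)
      simpa [hi] using this.symm
    · rw [h1 i (by simpa using hi), hx' i hi]
    · obtain ⟨r, rfl⟩ := h2
      rw [List.getElem?_append_left (by simpa using hi)]
      simp [hi]
  refine ⟨max m B, ?_⟩
  intro p hp
  cases p with
  | node x' s =>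
    obtain ⟨hne, hag, hpp⟩ := hp
    refine ⟨(List.range m).map b, ?_, by simp, ?_, hOK x' hag, ?_⟩
    · rw [List.prefix_iff_eq_take]
      apply List.ext_getElem?
      intro i
      by_cases hi : i < m
      · rw [List.getElem?_take_of_lt (by simpa using hi), hpp i hi]
        simp [hi]
      · rw [List.getElem?_eq_none (by simp; omega), List.getElem?_eq_none (by simp; omega)]
    · intro a ha
      obtain ⟨k, hk, rfl⟩ := List.mem_map.1 ha
      exact (hB k (List.mem_range.1 hk)).trans (le_max_right _ _)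
    · intro s' hs'
      apply h
      refine ⟨hne, hag, fun i hi => ?_⟩
      obtain ⟨r, rfl⟩ := hs'
      rw [List.getElem?_append_left (by simpa using hi)]
      simp [hi]
  | pt x' b' =>
    obtain ⟨hag, hag'⟩ := hp
    refine ⟨m, le_max_left _ _, fun k hk => ?_, ?_⟩
    · rw [hag' k hk]
      exact (hB k hk).trans (le_max_right _ _)
    · rw [map_range_congr hag' le_rfl]
      exact hOK x' hag

theorem mem_GG_of_large {U : Set Blk} {x : ℕ → Bool} {s : List ℕ} (h : node x s ∈ U) :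
    ∃ n, node x s ∈ GG U n := by
  have hbd : ∃ B : ℕ, ∀ a ∈ s, a ≤ B := by
    refine ⟨s.sum, fun a ha => List.single_le_sum (by simp) a ha⟩
  obtain ⟨B, hB⟩ := hbd
  exact ⟨max s.length B, h, le_max_left _ _, Or.inl fun a ha => (hB a ha).trans (le_max_right _ _)⟩

theorem compact_subset_GG {U : Set Blk} {x : ℕ → Bool} {C : Set Blk}
    (hC : IsCompact C) (hCT : C ⊆ T x) (hCU : C ⊆ U) : ∃ n, C ⊆ GG U n := by
  classical
  by_contra hcon
  push Not at hcon
  have h1 : ∀ n, ∃ s, node x s ∈ C ∧ node x s ∉ GG U n := by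
    intro n
    obtain ⟨p, hp, hp'⟩ := Set.not_subset.1 (hcon n)
    obtain ⟨s, rfl⟩ := hCT hp
    exact ⟨s, hp, hp'⟩
  choose s hsC hsG using h1
  let D : ℕ → Set Blk := fun n => {p | ∃ k, n ≤ k ∧ p = node x (s k)}
  have hDT : ∀ n, D n ⊆ T x := by
    rintro n p ⟨k, _, rfl⟩
    exact ⟨_, rfl⟩
  have hDC : ∀ n, D n ⊆ C := by
    rintro n p ⟨k, _, rfl⟩
    exact hsC k
  have hDclosed : ∀ n, IsClosed (D n) := by
    intro n
    refine isClosed_of_subset_T (hDT n) ?_
    intro q _
    by_contra hfreq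
    have hfreq' : ∃ᶠ j : ℕ in atTop, node x (q ++ [j]) ∈ D n := by
      intro h
      exact hfreq h
    have hqC : node x q ∈ C := by
      have hCc : IsClosed C := hC.isClosed
      exact hCc.mem_of_frequently_of_tendsto (hfreq'.mono fun j hj => hDC n hj) (tendsto_node x q)
    have hqU := hCU hqC
    obtain ⟨M, hM⟩ := mem_GG_of_large hqU
    -- for k ≥ M + 1, all `node x (q ++ [j]) ∈ U` are in `GG U k`
    obtain ⟨B, hB⟩ : ∃ B : ℕ, ∀ a ∈ q, a ≤ B :=
      ⟨q.sum, fun a ha => List.single_le_sum (by simp) a ha⟩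
    have hbig : ∀ k, max (q.length + 1) B ≤ k → ∀ j, node x (q ++ [j]) ∈ U →
        node x (q ++ [j]) ∈ GG U k := by
      intro k hk j hj
      refine ⟨hj, ?_, Or.inr ⟨?_, ?_⟩⟩
      · simp only [List.length_append, List.length_singleton]
        omega
      · intro a ha
        simp only [List.dropLast_concat] at ha
        have := hB a ha
        omega
      · simp only [List.dropLast_concat]
        exact hqU
    have hfin : ∃ Q : ℕ, ∀ j, node x (q ++ [j]) ∈ D n → j ≤ Q := by
      refine ⟨(Finset.range (max (q.length + 1) B)).sup (fun k => (s k).getLastD 0), ?_⟩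
      rintro j ⟨k, _, hk⟩
      injection hk with _ hk'
      have hk2 : k < max (q.length + 1) B := by
        by_contra hc
        push Not at hc
        apply hsG k
        rw [← hk']
        apply hbig k hc j
        rw [hk']
        exact hCU (hsC k)
      have h3 : (s k).getLastD 0 = j := by
        rw [← hk']
        simp
      calc j = (s k).getLastD 0 := h3.symm
        _ ≤ _ := Finset.le_sup (f := fun k => (s k).getLastD 0) (Finset.mem_range.2 hk2)
    obtain ⟨Q, hQ⟩ := hfin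
    obtain ⟨j, hj, hj'⟩ := (hfreq'.and_eventually (eventually_gt_atTop Q)).exists
    have := hQ j hj
    omega
  -- now compactness
  have hcov : C ⊆ ⋃ n, (D n)ᶜ := by
    intro p hp
    obtain ⟨r, rfl⟩ := hCT hp
    obtain ⟨M, hM⟩ := mem_GG_of_large (hCU hp)
    rw [mem_iUnion]
    refine ⟨M, ?_⟩
    rintro ⟨k, hk, hk'⟩
    apply hsG k
    rw [← hk']
    exact GG_mono hk hM
  have hdir : Directed (· ⊆ ·) fun n => (D n)ᶜ := by
    have hmono : Monotone fun n => (D n)ᶜ := by
      intro a b hab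
      apply compl_subset_compl.2
      rintro p ⟨k, hk, rfl⟩
      exact ⟨k, hab.trans hk, rfl⟩
    exact hmono.directed_le
  obtain ⟨n, hn⟩ := hC.elim_directed_cover _ (fun n => (hDclosed n).isOpen_compl) hcov hdir
  exact hn (hsC n) ⟨n, le_rfl, rfl⟩

theorem ksemi_blk : KSemi Blk := by
  classical
  refine ⟨fun U n => UF U n ∪ GG U n, ?_, ?_, ?_, ?_⟩
  · intro U _ n
    exact (isClosed_UF U n).union (isClosed_GG U n)
  · intro U hU
    apply Subset.antisymm
    · intro p hp
      rw [mem_iUnion]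
      cases p with
      | node x s =>
        obtain ⟨n, hn⟩ := mem_GG_of_large hp
        exact ⟨n, Or.inr hn⟩
      | pt x b =>
        obtain ⟨m, hm⟩ := (isOpen_iff.1 hU).2 x b hp
        obtain ⟨n, hn⟩ := N_subset_UF hm
        exact ⟨n, Or.inl (hn (self_mem_N m x b))⟩
    · exact iUnion_subset fun n => union_subset (UF_subset U n) (GG_subset U n)
  · intro U hU K hK hKU
    -- for each point of `K` a clopen neighbourhood on which we are done
    have key : ∀ p ∈ K, ∃ W : Set Blk, IsOpen W ∧ p ∈ W ∧ ∃ n, K ∩ W ⊆ UF U n ∪ GG U n := by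
      intro p hp
      cases p with
      | node x s =>
        refine ⟨T x, isOpen_T x, ⟨s, rfl⟩, ?_⟩
        obtain ⟨n, hn⟩ := compact_subset_GG (hK.inter_right (isClosed_T x)) inter_subset_right
          (inter_subset_left.trans hKU)
        exact ⟨n, hn.trans subset_union_right⟩
      | pt x b =>
        obtain ⟨m, hm⟩ := (isOpen_iff.1 hU).2 x b (hKU hp)
        obtain ⟨n, hn⟩ := N_subset_UF hm
        exact ⟨N m x b, isOpen_N m x b, self_mem_N m x b, n,
          inter_subset_right.trans (hn.trans subset_union_left)⟩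
    choose! W hWo hpW n hn using key
    obtain ⟨F, hF, hcov⟩ := hK.elim_nhds_subcover W (fun p hp => (hWo p hp).mem_nhds (hpW p hp))
    refine ⟨F.sup n, ?_⟩
    intro p hp
    obtain ⟨q, hq, hpq⟩ := mem_iUnion₂.1 (hcov hp)
    have h1 := hn q (hF q hq) ⟨hp, hpq⟩
    have h2 : n q ≤ F.sup n := Finset.le_sup hq
    exact h1.imp (fun h => UF_mono h2 h) (fun h => GG_mono h2 h)
  · intro U V _ _ hUV n
    exact union_subset_union (UF_mono_set hUV n) (GG_mono_set hUV n)

end Pool.Agent.H821.KSS
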