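import Pool.Agent.H821.KSS.Block

/-!
# The gluing construction

`B` is a block, `K ⊆ B` closed. `Glue B K` consists of countably many copies of `B` and one more
point `p` to which the copies of `K` converge, with the weak topology.
-/

open Set Topology Filter

namespace Pool.Agent.H821.KSS

variable {B : Type} [TopologicalSpace B]

/-- the continuous functions of the glued space -/
def Good (K : Set B) (h : Option (ℕ × B) → ℝ) : Prop :=
  (∀ j, Continuous fun b => h (some (j, b))) ∧
  ∀ ε > 0, ∃ n, ∀ j ≥ n, ∀ b ∈ K, |h (some (j, b)) - h none| < ε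

/-- The glued space. -/
def Glue (_K : Set B) : Type := Option (ℕ × B)

/-- the point at infinity -/
def pinf (K : Set B) : Glue K := (none : Option (ℕ × B))

/-- the point `b` of the copy `j`. -/
def cp (K : Set B) (j : ℕ) (b : B) : Glue K := (some (j, b) : Option (ℕ × B))

variable {K : Set B}

theorem glue_cases (p : Glue K) : p = pinf K ∨ ∃ j b, p = cp K j b := by
  rcases p with _ | ⟨j, b⟩
  · exact Or.inl rfl
  · exact Or.inr ⟨j, b, rfl⟩

theorem cp_ne_pinf (j : ℕ) (b : B) : cp K j b ≠ pinf K := by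
  intro h
  exact Option.some_ne_none _ h

theorem cp_inj {j j' : ℕ} {b b' : B} : cp K j b = cp K j' b' ↔ j = j' ∧ b = b' := by
  constructor
  · intro h
    have := Option.some.inj h
    exact ⟨congrArg Prod.fst this, congrArg Prod.snd this⟩
  · rintro ⟨rfl, rfl⟩
    rfl

/-- the evaluation map -/
def ev (K : Set B) (p : Glue K) : {h : Option (ℕ × B) → ℝ // Good K h} → ℝ := fun h => h.1 p

instance : TopologicalSpace (Glue K) := TopologicalSpace.induced (ev K) inferInstance

theorem isInducing_ev : IsInducing (ev K) := ⟨rfl⟩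

instance : CompletelyRegularSpace (Glue K) := isInducing_ev.completelyRegularSpace

theorem continuous_of_good {h : Glue K → ℝ} (hh : Good K h) : Continuous h := by
  have h1 : Continuous (ev K) := isInducing_ev.continuous
  exact (continuous_apply (⟨h, hh⟩ : {h : Option (ℕ × B) → ℝ // Good K h})).comp h1

theorem continuous_cp (j : ℕ) : Continuous (cp K j) := by
  rw [isInducing_ev.continuous_iff]
  rw [continuous_pi_iff]
  intro h
  exact h.2.1 j

/-- The copies of `K` converge to the point at infinity. -/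
theorem tendsto_glue :
    Tendsto (fun q : ℕ × B => cp K q.1 q.2) (atTop ×ˢ 𝓟 K) (𝓝 (pinf K)) := by
  rw [isInducing_ev.tendsto_nhds_iff]
  rw [tendsto_pi_nhds]
  intro h
  rw [Metric.tendsto_nhds]
  intro ε hε
  obtain ⟨n, hn⟩ := h.2.2 ε hε
  rw [Filter.eventually_prod_principal_iff]
  filter_upwards [eventually_ge_atTop n] with j hj b hb
  exact hn j hj b hb

theorem eventually_K {U : Set (Glue K)} (hU : IsOpen U) (hp : pinf K ∈ U) :
    ∃ n, ∀ j ≥ n, ∀ b ∈ K, cp K j b ∈ U := by
  have := tendsto_glue.eventually (hU.mem_nhds hp)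
  rw [Filter.eventually_prod_principal_iff] at this
  exact eventually_atTop.1 this

theorem tendsto_seq (k : ℕ → ℕ) (hk : ∀ n, n ≤ k n) (b : ℕ → B) (hb : ∀ n, b n ∈ K) :
    Tendsto (fun n => cp K (k n) (b n)) atTop (𝓝 (pinf K)) := by
  rw [tendsto_nhds]
  intro U hU hp
  obtain ⟨n, hn⟩ := eventually_K hU hp
  filter_upwards [eventually_ge_atTop n] with m hm
  exact hn _ (hm.trans (hk m)) _ (hb m)

theorem kr_glue (hB : KR B) : KR (Glue K) := by
  intro f hf
  apply continuous_of_good
  refine ⟨fun j => ?_, ?_⟩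
  · apply hB
    intro C hC
    have h1 := hf (cp K j '' C) (hC.image (continuous_cp j))
    exact h1.comp (continuous_cp j).continuousOn (mapsTo_image _ _)
  · by_contra hcon
    push Not at hcon
    obtain ⟨ε, hε, hcon⟩ := hcon
    choose k hk b hb hfb using hcon
    have h1 := seq_cont f hf _ _ (tendsto_seq k hk b hb)
    rw [Metric.tendsto_nhds] at h1
    obtain ⟨n, hn⟩ := (h1 ε hε).exists
    exact absurd hn (not_lt.2 (hfb n))

variable [CompletelyRegularSpace B]

theorem isOpen_of_slices {U : Set (Glue K)} (h1 : ∀ j, IsOpen (cp K j ⁻¹' U))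
    (h2 : pinf K ∈ U → ∃ n, ∀ j ≥ n, ∀ b, cp K j b ∈ U) : IsOpen U := by
  classical
  rw [isOpen_iff_forall_mem_open]
  intro p hp
  rcases glue_cases p with rfl | ⟨j, b, rfl⟩
  · obtain ⟨n, hn⟩ := h2 hp
    let g : Option (ℕ × B) → ℝ := fun q => match q with
      | none => 1
      | some (j, _) => if n ≤ j then 1 else 0
    have hg : Good K g := by
      refine ⟨fun j => continuous_const, fun ε hε => ⟨n, fun j hj b _ => ?_⟩⟩
      simp only [g]
      rw [if_pos hj]
      simpa using hε
    have hgc : @Continuous (Glue K) ℝ _ _ g := continuous_of_good hg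
    refine ⟨(g : Glue K → ℝ) ⁻¹' Ioi (1/2), ?_, isOpen_Ioi.preimage hgc, ?_⟩
    · intro q hq
      rcases glue_cases q with rfl | ⟨j, b, rfl⟩
      · exact hp
      · have h3 : (1/2 : ℝ) < if n ≤ j then 1 else 0 := hq
        split_ifs at h3 with h4
        · exact hn j h4 b
        · norm_num at h3
    · show (1/2 : ℝ) < 1
      norm_num
  · obtain ⟨φ, hφc, hφb, hφ⟩ := CompletelyRegularSpace.completely_regular b
      (cp K j ⁻¹' U)ᶜ (h1 j).isClosed_compl (by simpa using hp)
    let g : Option (ℕ × B) → ℝ := fun q => match q with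
      | none => 1
      | some (i, b') => if i = j then (φ b' : ℝ) else 1
    have hg : Good K g := by
      refine ⟨fun i => ?_, fun ε hε => ⟨j + 1, fun i hi b _ => ?_⟩⟩
      · by_cases hi : i = j
        · simp only [g, if_pos hi]
          exact continuous_subtype_val.comp hφc
        · simp only [g, if_neg hi]
          exact continuous_const
      · simp only [g]
        rw [if_neg (by omega)]
        simpa using hε
    have hgc : @Continuous (Glue K) ℝ _ _ g := continuous_of_good hg
    refine ⟨(g : Glue K → ℝ) ⁻¹' Iio (1/2), ?_, isOpen_Iio.preimage hgc, ?_⟩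
    · intro q hq
      rcases glue_cases q with rfl | ⟨i, b', rfl⟩
      · have h3 : (1 : ℝ) < 1/2 := hq
        norm_num at h3
      · have h3 : (if i = j then (φ b' : ℝ) else 1) < 1/2 := hq
        split_ifs at h3 with h4
        · subst h4
          by_contra hc
          have := hφ (show b' ∈ (cp K i ⁻¹' U)ᶜ from hc)
          rw [this] at h3
          norm_num at h3
        · norm_num at h3
    · show (if j = j then (φ b : ℝ) else 1) < 1/2
      rw [if_pos rfl, hφb]
      norm_num

theorem isClosed_of_slices {C : Set (Glue K)} (h1 : ∀ j, IsClosed (cp K j ⁻¹' C))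
    (h2 : pinf K ∉ C → ∃ n, ∀ j ≥ n, ∀ b, cp K j b ∉ C) : IsClosed C := by
  rw [← isOpen_compl_iff]
  exact isOpen_of_slices (fun j => (h1 j).isOpen_compl) h2

/-- the copy `j` as a set. -/
def slice (K : Set B) (j : ℕ) : Set (Glue K) := {p | ∃ b, p = cp K j b}

theorem isOpen_slice (j : ℕ) : IsOpen (slice K j) := by
  apply isOpen_of_slices
  · intro i
    by_cases h : i = j
    · subst h
      have : cp K i ⁻¹' slice K i = univ := by
        ext b
        simp only [mem_preimage, mem_univ, iff_true]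
        exact ⟨b, rfl⟩
      rw [this]
      exact isOpen_univ
    · have : cp K i ⁻¹' slice K j = ∅ := by
        ext b
        simp only [mem_preimage, mem_empty_iff_false, iff_false]
        rintro ⟨b', hb'⟩
        exact h (cp_inj.1 hb').1
      rw [this]
      exact isOpen_empty
  · rintro ⟨b, hb⟩
    exact absurd hb.symm (cp_ne_pinf j b)

theorem isOpenEmbedding_cp (j : ℕ) : IsOpenEmbedding (cp K j) := by
  refine IsOpenEmbedding.of_continuous_injective_isOpenMap (continuous_cp j)
    (fun b b' h => (cp_inj.1 h).2) ?_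
  intro U hU
  apply isOpen_of_slices
  · intro i
    by_cases h : i = j
    · subst h
      rw [preimage_image_eq _ (fun b b' h => (cp_inj.1 h).2)]
      exact hU
    · have : cp K i ⁻¹' (cp K j '' U) = ∅ := by
        ext b
        simp only [mem_preimage, mem_empty_iff_false, iff_false]
        rintro ⟨b', _, hb'⟩
        exact h (cp_inj.1 hb').1.symm
      rw [this]
      exact isOpen_empty
  · rintro ⟨b, _, hb⟩
    exact absurd hb (cp_ne_pinf j b)

theorem isClosedEmbedding_cp (j : ℕ) : IsClosedEmbedding (cp K j) := by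
  refine ⟨(isOpenEmbedding_cp j).isEmbedding, ?_⟩
  apply isClosed_of_slices
  · intro i
    by_cases h : i = j
    · subst h
      rw [preimage_range]
      exact isClosed_univ
    · have : cp K i ⁻¹' (range (cp K j)) = ∅ := by
        ext b
        simp only [mem_preimage, mem_empty_iff_false, iff_false]
        rintro ⟨b', hb'⟩
        exact h (cp_inj.1 hb').1.symm
      rw [this]
      exact isClosed_empty
  · intro _
    refine ⟨j + 1, fun i hi b => ?_⟩
    rintro ⟨b', hb'⟩
    have := (cp_inj.1 hb').1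
    omega

theorem t0_glue [T0Space B] : T0Space (Glue K) := by
  refine ⟨?_⟩
  intro p q hpq
  have key : ∀ U : Set (Glue K), IsOpen U → (p ∈ U ↔ q ∈ U) := fun U hU => hpq.mem_open_iff hU
  rcases glue_cases p with rfl | ⟨j, b, rfl⟩
  · rcases glue_cases q with rfl | ⟨i, c, rfl⟩
    · rfl
    · obtain ⟨b', hb'⟩ := (key (slice K i) (isOpen_slice i)).2 ⟨c, rfl⟩
      exact hb'.trans ((absurd hb'.symm (cp_ne_pinf i b')))
  · rcases glue_cases q with rfl | ⟨i, c, rfl⟩
    · obtain ⟨b', hb'⟩ := (key (slice K j) (isOpen_slice j)).1 ⟨b, rfl⟩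
      exact absurd hb'.symm (cp_ne_pinf j b')
    · obtain ⟨b', hb'⟩ := (key (slice K j) (isOpen_slice j)).1 ⟨b, rfl⟩
      have hij : i = j := (cp_inj.1 hb').1
      subst hij
      have h1 : Inseparable b c := (isOpenEmbedding_cp (K := K) i).isInducing.inseparable_iff.1 hpq
      rw [h1.eq]

/-- Compact sets meet almost all copies inside `K`. -/
theorem compact_eventually (hK : IsClosed K) {C : Set (Glue K)} (hC : IsCompact C) :
    ∃ n, ∀ j ≥ n, ∀ b, cp K j b ∈ C → b ∈ K := by
  classical
  by_contra hcon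
  push Not at hcon
  have key : ∀ j, ∃ φ : B → ℝ, Continuous φ ∧ (∀ b ∈ K, φ b = 0) ∧
      ((∃ b, cp K j b ∈ C ∧ b ∉ K) → ∃ b, cp K j b ∈ C ∧ φ b = 1) := by
    intro j
    by_cases hj : ∃ b, cp K j b ∈ C ∧ b ∉ K
    · obtain ⟨b, hb, hbK⟩ := hj
      obtain ⟨φ, hφc, hφb, hφ⟩ := CompletelyRegularSpace.completely_regular b K hK hbK
      refine ⟨fun x => 1 - (φ x : ℝ), continuous_const.sub (continuous_subtype_val.comp hφc),
        fun x hx => ?_, fun _ => ⟨b, hb, ?_⟩⟩
      · have := hφ hx
        show 1 - (φ x : ℝ) = 0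
        rw [this]
        simp
      · show 1 - (φ b : ℝ) = 1
        rw [hφb]
        simp
    · exact ⟨fun _ => 0, continuous_const, fun _ _ => rfl, fun h => (hj h).elim⟩
  choose φ hφc hφK hφ1 using key
  let g : Option (ℕ × B) → ℝ := fun q => match q with
    | none => 0
    | some (i, b') => φ i b'
  have hg : Good K g := by
    refine ⟨fun i => hφc i, fun ε hε => ⟨0, fun i hi b hb => ?_⟩⟩
    simp only [g]
    rw [hφK i b hb]
    simpa using hε
  have hgc : @Continuous (Glue K) ℝ _ _ g := continuous_of_good hg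
  let W : ℕ → Set (Glue K) := fun n => (g : Glue K → ℝ) ⁻¹' Iio (1/2) ∪ ⋃ j ∈ Iio n, slice K j
  have hWo : ∀ n, IsOpen (W n) := fun n =>
    (isOpen_Iio.preimage hgc).union (isOpen_biUnion fun j _ => isOpen_slice j)
  have hWmono : Monotone W := by
    intro a b hab
    exact union_subset_union_right _ (biUnion_subset_biUnion_left (Iio_subset_Iio hab))
  have hcov : C ⊆ ⋃ n, W n := by
    intro p _
    rw [mem_iUnion]
    rcases glue_cases p with rfl | ⟨j, b, rfl⟩
    · refine ⟨0, Or.inl ?_⟩
      show (0 : ℝ) < 1/2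
      norm_num
    · exact ⟨j + 1, Or.inr (mem_iUnion₂.2 ⟨j, by simp, b, rfl⟩)⟩
  obtain ⟨n, hn⟩ := hC.elim_directed_cover W hWo hcov hWmono.directed_le
  obtain ⟨j, hj, b, hb, hbK⟩ := hcon n
  obtain ⟨b', hb', hφ'⟩ := hφ1 j ⟨b, hb, hbK⟩
  rcases hn hb' with h | h
  · have : φ j b' < 1/2 := h
    rw [hφ'] at this
    norm_num at this
  · obtain ⟨i, hi, c, hc⟩ := mem_iUnion₂.1 h
    have := (cp_inj.1 hc).1
    simp only [mem_Iio] at hi
    omega

theorem compact_slices {C : Set (Glue K)} (hC : IsCompact C) (hp : pinf K ∉ C) :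
    ∃ n, ∀ j ≥ n, ∀ b, cp K j b ∉ C := by
  let W : ℕ → Set (Glue K) := fun n => ⋃ j ∈ Iio n, slice K j
  have hWo : ∀ n, IsOpen (W n) := fun n => isOpen_biUnion fun j _ => isOpen_slice j
  have hWmono : Monotone W := by
    intro a b hab
    exact biUnion_subset_biUnion_left (Iio_subset_Iio hab)
  have hcov : C ⊆ ⋃ n, W n := by
    intro p hpC
    rw [mem_iUnion]
    rcases glue_cases p with rfl | ⟨j, b, rfl⟩
    · exact (hp hpC).elim
    · exact ⟨j + 1, mem_iUnion₂.2 ⟨j, by simp, b, rfl⟩⟩
  obtain ⟨n, hn⟩ := hC.elim_directed_cover W hWo hcov hWmono.directed_le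
  refine ⟨n, fun j hj b hb => ?_⟩
  obtain ⟨i, hi, c, hc⟩ := mem_iUnion₂.1 (hn hb)
  have := (cp_inj.1 hc).1
  simp only [mem_Iio] at hi
  omega

theorem ksemi_glue (hK : IsClosed K) (hB : KSemi B) : KSemi (Glue K) := by
  classical
  obtain ⟨S, hS1, hS2, hS3, hS4⟩ := hB
  -- increasing version
  let R : Set B → ℕ → Set B := fun U n => ⋃ k ∈ Finset.range (n + 1), S U k
  have hR1 : ∀ U, IsOpen U → ∀ n, IsClosed (R U n) := fun U hU n =>
    isClosed_biUnion_finset fun k _ => hS1 U hU k
  have hRmono : ∀ U, ∀ {n m : ℕ}, n ≤ m → R U n ⊆ R U m := by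
    intro U n m h p hp
    obtain ⟨k, hk, hk'⟩ := mem_iUnion₂.1 hp
    refine mem_iUnion₂.2 ⟨k, ?_, hk'⟩
    rw [Finset.mem_range] at hk ⊢
    omega
  have hSR : ∀ U n, S U n ⊆ R U n := fun U n p hp =>
    mem_iUnion₂.2 ⟨n, by simp, hp⟩
  have hRU : ∀ U, IsOpen U → ∀ n, R U n ⊆ U := by
    intro U hU n p hp
    obtain ⟨k, hk, hk'⟩ := mem_iUnion₂.1 hp
    rw [hS2 U hU]
    exact mem_iUnion.2 ⟨k, hk'⟩
  have hR4 : ∀ U V, IsOpen U → IsOpen V → U ⊆ V → ∀ n, R U n ⊆ R V n := by
    intro U V hU hV h n p hp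
    obtain ⟨k, hk, hk'⟩ := mem_iUnion₂.1 hp
    exact mem_iUnion₂.2 ⟨k, hk, hS4 U V hU hV h k hk'⟩
  let Q : Set (Glue K) → ℕ → Set (Glue K) := fun U n =>
    {p | (p = pinf K ∧ pinf K ∈ U) ∨ ∃ j b, p = cp K j b ∧
      ((b ∈ R (cp K j ⁻¹' U) n ∧ (pinf K ∈ U ∨ j ≤ n)) ∨
        (pinf K ∈ U ∧ K ⊆ cp K j ⁻¹' U ∧ b ∈ K))}
  have hQp : ∀ U n, pinf K ∈ Q U n ↔ pinf K ∈ U := by
    intro U n
    constructor
    · rintro (⟨_, h⟩ | ⟨j, b, h, _⟩)
      · exact h
      · exact absurd h.symm (cp_ne_pinf j b)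
    · intro h
      exact Or.inl ⟨rfl, h⟩
  have hQc : ∀ U n j b, cp K j b ∈ Q U n ↔
      ((b ∈ R (cp K j ⁻¹' U) n ∧ (pinf K ∈ U ∨ j ≤ n)) ∨
        (pinf K ∈ U ∧ K ⊆ cp K j ⁻¹' U ∧ b ∈ K)) := by
    intro U n j b
    constructor
    · rintro (⟨h, _⟩ | ⟨j', b', h, h'⟩)
      · exact absurd h (cp_ne_pinf j b)
      · obtain ⟨rfl, rfl⟩ := cp_inj.1 h
        exact h'
    · intro h
      exact Or.inr ⟨j, b, rfl, h⟩
  have hpre : ∀ U : Set (Glue K), IsOpen U → ∀ j, IsOpen (cp K j ⁻¹' U) := fun U hU j =>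
    hU.preimage (continuous_cp j)
  have hQmono : ∀ U, ∀ {n m : ℕ}, n ≤ m → Q U n ⊆ Q U m := by
    intro U n m h p hp
    rcases glue_cases p with rfl | ⟨j, b, rfl⟩
    · exact (hQp U m).2 ((hQp U n).1 hp)
    · rw [hQc] at hp ⊢
      rcases hp with ⟨h1, h2⟩ | h3
      · exact Or.inl ⟨hRmono _ h h1, h2.imp id fun h3 => h3.trans h⟩
      · exact Or.inr h3
  refine ⟨Q, ?_, ?_, ?_, ?_⟩
  · -- closed
    intro U hU n
    by_cases hp : pinf K ∈ U
    · apply isClosed_of_slices
      · intro j
        by_cases hKU : K ⊆ cp K j ⁻¹' U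
        · have : cp K j ⁻¹' Q U n = R (cp K j ⁻¹' U) n ∪ K := by
            ext b
            rw [mem_preimage, hQc]
            simp only [hp, true_or, and_true, hKU, true_and, mem_union]
          rw [this]
          exact (hR1 _ (hpre U hU j) n).union hK
        · have : cp K j ⁻¹' Q U n = R (cp K j ⁻¹' U) n := by
            ext b
            rw [mem_preimage, hQc]
            simp only [hp, true_or, and_true, hKU, false_and, and_false, or_false]
          rw [this]
          exact hR1 _ (hpre U hU j) n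
      · intro h
        exact (h ((hQp U n).2 hp)).elim
    · apply isClosed_of_slices
      · intro j
        by_cases hj : j ≤ n
        · have : cp K j ⁻¹' Q U n = R (cp K j ⁻¹' U) n := by
            ext b
            rw [mem_preimage, hQc]
            simp only [hp, hj, or_true, and_true, false_and, or_false]
          rw [this]
          exact hR1 _ (hpre U hU j) n
        · have : cp K j ⁻¹' Q U n = ∅ := by
            ext b
            rw [mem_preimage, hQc]
            simp only [hp, hj, or_false, and_false, false_and, mem_empty_iff_false]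
          rw [this]
          exact isClosed_empty
      · intro _
        refine ⟨n + 1, fun j hj b hb => ?_⟩
        rw [hQc] at hb
        rcases hb with ⟨_, h | h⟩ | ⟨h, _⟩
        · exact hp h
        · omega
        · exact hp h
  · -- union
    intro U hU
    apply Subset.antisymm
    · intro p hp
      rw [mem_iUnion]
      rcases glue_cases p with rfl | ⟨j, b, rfl⟩
      · exact ⟨0, (hQp U 0).2 hp⟩
      · have hb : b ∈ cp K j ⁻¹' U := hp
        rw [hS2 _ (hpre U hU j)] at hb
        obtain ⟨n, hn⟩ := mem_iUnion.1 hb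
        refine ⟨max n j, (hQc U _ j b).2 (Or.inl ⟨?_, Or.inr (le_max_right _ _)⟩)⟩
        exact hRmono _ (le_max_left _ _) (hSR _ _ hn)
    · apply iUnion_subset
      intro n p hp
      rcases glue_cases p with rfl | ⟨j, b, rfl⟩
      · exact (hQp U n).1 hp
      · rw [hQc] at hp
        rcases hp with ⟨h1, _⟩ | ⟨_, h2, h3⟩
        · exact hRU _ (hpre U hU j) n h1
        · exact h2 h3
  · -- compact
    intro U hU C hC hCU
    have hslice : ∀ j, ∃ n, cp K j ⁻¹' C ⊆ R (cp K j ⁻¹' U) n := by
      intro j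
      obtain ⟨n, hn⟩ := hS3 _ (hpre U hU j) (cp K j ⁻¹' C)
        ((isClosedEmbedding_cp j).isCompact_preimage hC) (preimage_mono hCU)
      exact ⟨n, hn.trans (hSR _ _)⟩
    choose ns hns using hslice
    by_cases hp : pinf K ∈ U
    · obtain ⟨n1, hn1⟩ := eventually_K hU hp
      obtain ⟨n2, hn2⟩ := compact_eventually hK hC
      refine ⟨(Finset.range (max n1 n2)).sup ns, ?_⟩
      intro p hpC
      rcases glue_cases p with rfl | ⟨j, b, rfl⟩
      · exact (hQp U _).2 hp
      · rw [hQc]
        by_cases hj : j < max n1 n2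
        · left
          refine ⟨?_, Or.inl hp⟩
          exact hRmono _ (Finset.le_sup (f := ns) (Finset.mem_range.2 hj)) (hns j hpC)
        · right
          exact ⟨hp, fun b hb => hn1 j (by omega) b hb, hn2 j (by omega) b hpC⟩
    · obtain ⟨n1, hn1⟩ := compact_slices hC (fun h => hp (hCU h))
      refine ⟨max n1 ((Finset.range n1).sup ns), ?_⟩
      intro p hpC
      rcases glue_cases p with rfl | ⟨j, b, rfl⟩
      · exact (hp (hCU hpC)).elim
      · rw [hQc]
        have hj : j < n1 := by
          by_contra hc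
          exact hn1 j (by omega) b hpC
        left
        refine ⟨?_, Or.inr (by omega)⟩
        have h1 : ns j ≤ (Finset.range n1).sup ns :=
          Finset.le_sup (f := ns) (Finset.mem_range.2 hj)
        exact hRmono _ (h1.trans (le_max_right _ _)) (hns j hpC)
  · -- monotone
    intro U V hU hV hUV n p hp
    rcases glue_cases p with rfl | ⟨j, b, rfl⟩
    · exact (hQp V n).2 (hUV ((hQp U n).1 hp))
    · rw [hQc] at hp ⊢
      rcases hp with ⟨h1, h2⟩ | ⟨h1, h2, h3⟩
      · exact Or.inl ⟨hR4 _ _ (hpre U hU j) (hpre V hV j) (preimage_mono hUV) n h1,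
          h2.imp (fun h => hUV h) id⟩
      · exact Or.inr ⟨hUV h1, h2.trans (preimage_mono hUV), h3⟩

/-- The closed subspace: the point at infinity and all copies of `H`. -/
def Fset (K H : Set B) : Set (Glue K) := {p | p = pinf K ∨ ∃ j, ∃ b ∈ H, p = cp K j b}

theorem isClosed_Fset {H : Set B} (hH : IsClosed H) : IsClosed (Fset K H) := by
  apply isClosed_of_slices
  · intro j
    have : cp K j ⁻¹' Fset K H = H := by
      ext b
      constructor
      · rintro (h | ⟨i, b', hb', h⟩)
        · exact absurd h (cp_ne_pinf j b)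
        · rw [(cp_inj.1 h).2]
          exact hb'
      · intro h
        exact Or.inr ⟨j, b, h, rfl⟩
    rw [this]
    exact hH
  · intro h
    exact (h (Or.inl rfl)).elim

open Classical in
/-- The bad function on the closed subspace. -/
noncomputable def bad (K H : Set B) (p : Fset K H) : ℝ := if p.1 = pinf K then 0 else 1

theorem bad_continuousOn (hK : IsClosed K) {H : Set B} (hKH : Disjoint H K)
    {C : Set (Fset K H)} (hC : IsCompact C) : ContinuousOn (bad K H) C := by
  classical
  have hC' : IsCompact (Subtype.val '' C) := hC.image continuous_subtype_val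
  obtain ⟨n, hn⟩ := compact_eventually hK hC'
  let g : Option (ℕ × B) → ℝ := fun q => match q with
    | none => 0
    | some (j, _) => if n ≤ j then 0 else 1
  have hg : Good K g := by
    refine ⟨fun j => continuous_const, fun ε hε => ⟨n, fun j hj b _ => ?_⟩⟩
    simp only [g]
    rw [if_pos hj]
    simpa using hε
  have hgc : @Continuous (Glue K) ℝ _ _ g := continuous_of_good hg
  have hcomp : Continuous (fun p : Fset K H => g p.1) :=
    hgc.comp continuous_subtype_val
  refine hcomp.continuousOn.congr ?_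
  rintro ⟨p, hp⟩ hpC
  rcases hp with rfl | ⟨j, b, hb, rfl⟩
  · show (if pinf K = pinf K then (0:ℝ) else 1) = 0
    rw [if_pos rfl]
  · have hj : ¬ n ≤ j := by
      intro hj
      have h1 := hn j hj b ⟨_, hpC, rfl⟩
      exact Set.disjoint_left.1 hKH hb h1
    show (if cp K j b = pinf K then (0:ℝ) else 1) = if n ≤ j then 0 else 1
    rw [if_neg (cp_ne_pinf j b), if_neg hj]

theorem bad_not_continuous {H : Set B}
    (hsep : ¬ ∃ h : B → ℝ, Continuous h ∧ (∀ p ∈ K, h p = 0) ∧ (∀ p ∈ H, h p = 1)) :
    ¬ Continuous (bad K H) := by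
  classical
  intro hc
  have hO : IsOpen (bad K H ⁻¹' Iio (1/2)) := isOpen_Iio.preimage hc
  rw [isOpen_induced_iff] at hO
  obtain ⟨U, hU, hUeq⟩ := hO
  have hpU : pinf K ∈ U := by
    have h1 : (⟨pinf K, Or.inl rfl⟩ : Fset K H) ∈ bad K H ⁻¹' Iio (1/2) := by
      show (if pinf K = pinf K then (0:ℝ) else 1) < 1/2
      rw [if_pos rfl]
      norm_num
    rw [← hUeq] at h1
    exact h1
  have hHU : ∀ j, ∀ b ∈ H, cp K j b ∉ U := by
    intro j b hb hmem
    have h1 : (⟨cp K j b, Or.inr ⟨j, b, hb, rfl⟩⟩ : Fset K H) ∈ Subtype.val ⁻¹' U := hmem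
    rw [hUeq] at h1
    have h2 : (if cp K j b = pinf K then (0:ℝ) else 1) < 1/2 := h1
    rw [if_neg (cp_ne_pinf j b)] at h2
    norm_num at h2
  obtain ⟨φ, hφc, hφp, hφ⟩ := CompletelyRegularSpace.completely_regular (pinf K) Uᶜ
    hU.isClosed_compl (by simpa using hpU)
  have hW : IsOpen ((fun p => (φ p : ℝ)) ⁻¹' Iio (1/2)) :=
    isOpen_Iio.preimage (continuous_subtype_val.comp hφc)
  obtain ⟨n, hn⟩ := eventually_K hW (by
    show (φ (pinf K) : ℝ) < 1/2
    rw [hφp]
    norm_num)
  apply hsep
  refine ⟨fun b => 2 * max (φ (cp K n b) : ℝ) (1/2) - 1, ?_, fun b hb => ?_, fun b hb => ?_⟩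
  · have h1 : Continuous fun b => (φ (cp K n b) : ℝ) :=
      continuous_subtype_val.comp (hφc.comp (continuous_cp n))
    exact (continuous_const.mul (h1.max continuous_const)).sub continuous_const
  · have h1 : (φ (cp K n b) : ℝ) < 1/2 := hn n le_rfl b hb
    show 2 * max (φ (cp K n b) : ℝ) (1/2) - 1 = 0
    rw [max_eq_right h1.le]
    norm_num
  · have h1 : φ (cp K n b) = 1 := hφ (hHU n b hb)
    show 2 * max (φ (cp K n b) : ℝ) (1/2) - 1 = 1
    rw [h1]
    norm_num

end Pool.Agent.H821.KSS
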